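import Pool.Agent.H655.RG5

/-!
# Eigenvectors of periodic Jacobi matrices on the red-green tree vanish on the green vertices
-/

set_option autoImplicit false

namespace Pool.Agent.Results.MP_1155ce_an.GreenVanish

open SimpleGraph Pool.Agent.H655.RG

/-- Let `2 ≤ g < r`, and let `a`, `b` be the coefficients of a Jacobi matrix on the complete
bipartite graph with red vertices `Sum.inl i` and green vertices `Sum.inr j`. Let `T` be a tree
and `ξ` a covering map from `T` onto that graph, so that `T` is its universal cover. If `u` is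
square summable and solves the eigenvalue equation of the lift for the real number `lam`, then
`u` vanishes at every green vertex of `T`. -/
theorem result (r g : ℕ) (hg : 2 ≤ g) (hr : g < r)
    (a : Sym2 (Fin r ⊕ Fin g) → ℝ)
    (ha : ∀ e ∈ (completeBipartiteGraph (Fin r) (Fin g)).edgeSet, 0 < a e)
    (b : Fin r ⊕ Fin g → ℝ)
    (V : Type) (T : SimpleGraph V) (hT : T.IsTree)
    (ξ : V → Fin r ⊕ Fin g)
    (hξ : ∀ x, Set.BijOn ξ (T.neighborSet x)
      ((completeBipartiteGraph (Fin r) (Fin g)).neighborSet (ξ x)))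
    (lam : ℝ) (u : V → ℂ) (hu : Summable (fun x => ‖u x‖ ^ 2))
    (heq : ∀ x, (b (ξ x) : ℂ) * u x + ∑ᶠ y ∈ T.neighborSet x, (a s(ξ x, ξ y) : ℂ) * u y =
      (lam : ℂ) * u x)
    (x : V) (j : Fin g) (hx : ξ x = Sum.inr j) : u x = 0 := by
  classical
  let D : Data V (Fin r ⊕ Fin g) :=
    { K := completeBipartiteGraph (Fin r) (Fin g)
      T := T
      ξ := ξ
      a := fun k l => a s(k, l)
      c := fun k => b k - lam
      hT := hT
      hc := hξ
      apos := fun k l h => ha _ h
      asymm := fun k l => by rw [Sym2.eq_swap] }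
  have hfin : ∀ x (f : V → ℂ), ∑ᶠ y ∈ T.neighborSet x, (a s(ξ x, ξ y) : ℂ) * f y =
      ∑ k ∈ D.N (ξ x), (a s(ξ x, k) : ℂ) * f (D.n x k) := by
    intro x f
    have h1 : T.neighborSet x = ((D.N (ξ x)).image (fun k => D.n x k) : Finset V) := by
      ext y
      rw [SimpleGraph.mem_neighborSet, Finset.mem_coe, Finset.mem_image]
      constructor
      · intro h
        exact ⟨ξ y, D.mem_N.2 (adj_map D.hc h), D.n_eq h⟩
      · rintro ⟨k, hk, rfl⟩
        exact D.n_adj (D.mem_N.1 hk)
    rw [h1, finsum_mem_coe_finset, Finset.sum_image]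
    · refine Finset.sum_congr rfl fun k hk => ?_
      have h2 : ξ (D.n x k) = k := D.n_map (D.mem_N.1 hk)
      rw [h2]
    · intro k hk l hl h
      have h2 : ξ (D.n x k) = k := D.n_map (D.mem_N.1 hk)
      have h3 : ξ (D.n x l) = l := D.n_map (D.mem_N.1 hl)
      have h4 : D.n x k = D.n x l := h
      rw [← h2, ← h3, h4]
  have hre : D.Sol (fun v => (u v).re) := by
    refine ⟨Summable.of_nonneg_of_le (fun v => sq_nonneg _) (fun v => ?_) hu, fun v => ?_⟩
    · rw [← sq_abs (u v).re]
      exact pow_le_pow_left₀ (abs_nonneg _) (Complex.abs_re_le_norm _) 2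
    · have h := congrArg Complex.re (heq v)
      rw [hfin, Complex.add_re, Complex.re_sum, Complex.re_ofReal_mul, Complex.re_ofReal_mul] at h
      simp only [Complex.re_ofReal_mul] at h
      change (b (ξ v) - lam) * (u v).re + ∑ k ∈ D.N (ξ v), a s(ξ v, k) * (u (D.n v k)).re = 0
      linarith
  have him : D.Sol (fun v => (u v).im) := by
    refine ⟨Summable.of_nonneg_of_le (fun v => sq_nonneg _) (fun v => ?_) hu, fun v => ?_⟩
    · rw [← sq_abs (u v).im]
      exact pow_le_pow_left₀ (abs_nonneg _) (Complex.abs_im_le_norm _) 2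
    · have h := congrArg Complex.im (heq v)
      rw [hfin, Complex.add_im, Complex.im_sum, Complex.im_ofReal_mul, Complex.im_ofReal_mul] at h
      simp only [Complex.im_ofReal_mul] at h
      change (b (ξ v) - lam) * (u v).im + ∑ k ∈ D.N (ξ v), a s(ξ v, k) * (u (D.n v k)).im = 0
      linarith
  have h1 := real_case hg hr D rfl hre (x := x) (j := j) hx
  have h2 := real_case hg hr D rfl him (x := x) (j := j) hx
  exact Complex.ext h1 h2

end Pool.Agent.Results.MP_1155ce_an.GreenVanish
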